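import Pool.Agent.Lib.MP_9bdb70_lc.Fin

/-! A deterministic polynomial time approximation of the free energy of the ferromagnetic Potts
model. -/

namespace Pool.Agent.Results.MP_9bdb70_lc.FreeEnergy

/-- The partition function of the `q`-state Potts model on the multigraph with vertex set `Fin n`
and edge list `E` (loops and repeated edges allowed). -/
def potts (q : ℕ) (y : ℚ) (n : ℕ) (E : List (Fin n × Fin n)) : ℚ :=
  ∑ σ : Fin n → Fin q, y ^ E.countP fun e => σ e.1 = σ e.2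

open Pool.Agent.Lib.MP_9bdb70_lc Pool.Agent.Lib.helper82 in
theorem result (q : ℕ) (hq : 1 ≤ q) (y : ℚ) (hy : 1 < y) :
    ∃ M : List (List ℕ) × List Bool × List (ℕ × ℕ) → ℕ × ℕ, N68a2faeb.IsPolyTime M ∧
      ∀ ε : ℝ, 0 < ε → ∃ a : List (List ℕ), ∀ (n : ℕ) (E : List (Fin n × Fin n)) (u v : ℕ),
        M (a, List.replicate n true, E.map fun e => (e.1.val, e.2.val)) = (u, v) →
        0 < v ∧ Real.exp (-(ε * n)) * potts q y n E ≤ u / v ∧
          (u / v : ℝ) ≤ Real.exp (ε * n) * potts q y n E := by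
  obtain ⟨w₁, w₂, h1, h2, h3⟩ := rat_split hy
  refine ⟨fun x => ept q 1 w₁ w₂ x.1 x.2.1 x.2.2, (ept_pt _ _ _ _ PT.fst' (PT.fst PT.snd')
    (PT.snd PT.snd')).isPolyTime, fun ε hε => (ept_spec hq one_pos h1 h2 hε).imp
      fun a H n E u v h => ?_⟩
  obtain ⟨a1, a2, a3⟩ := H _ _ (List.forall_mem_map.2 (by simp)) _ h.symm
  have h7 := potts_eq hq (show (0 : ℝ) < w₁ / w₂ by positivity) E id
  have h8 : (potts q y n E : ℝ) = ZL (Real.log (w₁ / w₂)) (Real.log q) n
      (E.map fun e => (e.1.val, e.2.val)) := by simpa [potts, h3] using h7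
  simp only [List.length_replicate, Nat.cast_one, div_one, ← h8] at a1 a2 a3
  have h9 : (0 : ℝ) < potts q y n E := h8 ▸ Zf_pos
  have h0 : (0 : ℝ) < u / v := by positivity
  rw [← Real.exp_log h9, ← Real.exp_log h0, ← Real.exp_add, ← Real.exp_add]
  exact ⟨a2, Real.exp_le_exp.2 (by linarith [(abs_le.1 a3).1]),
    Real.exp_le_exp.2 (by linarith [(abs_le.1 a3).2])⟩

end Pool.Agent.Results.MP_9bdb70_lc.FreeEnergy
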