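import Pool.Agent.Lib.MP_9bdb70_lc.S2Ras

/-! A randomized approximation scheme for the ferromagnetic Potts model in time
`2^(O(sqrt(n log n)))`. -/

namespace Pool.Agent.Results.MP_9bdb70_lc.SqrtScheme

/-- The partition function of the `q`-state Potts model on the multigraph with vertex set `Fin n`
and edge list `E` (loops and repeated edges allowed). -/
def potts (q : ℕ) (y : ℚ) (n : ℕ) (E : List (Fin n × Fin n)) : ℚ :=
  ∑ σ : Fin n → Fin q, y ^ E.countP fun e => σ e.1 = σ e.2

/-- The input: the number of vertices in unary, the edge list, and `k` in unary. -/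
def input (n : ℕ) (E : List (Fin n × Fin n)) (k : ℕ) : (List Bool × List (ℕ × ℕ)) × List Bool :=
  ((List.replicate n true, E.map fun e => (e.1.val, e.2.val)), List.replicate k true)

open Pool.Agent.Lib.MP_9bdb70_lc Pool.Agent.Lib.MP_b67cc8_lc in
theorem result (q : ℕ) (hq : 1 ≤ q) (y : ℚ) (hy : 1 < y) :
    ∃ (M : ((List Bool × List (ℕ × ℕ)) × List Bool) × List Bool → ℕ × ℕ) (p : Polynomial ℕ) (C : ℕ),
      N68a2faeb.IsPolyTime M ∧ ∀ (n : ℕ) (E : List (Fin n × Fin n)) (k l : ℕ), 0 < k →
        p.eval (N487b59b3.bitEncode (input n E k)).length *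
          2 ^ (C * Nat.sqrt (n * Nat.log 2 n)) ≤ l →
        (3 : ℚ) / 4 ≤ ((Finset.univ.filter fun r : Fin l → Bool =>
          0 < (M (input n E k, List.ofFn r)).2 ∧
          |((M (input n E k, List.ofFn r)).1 : ℚ) / (M (input n E k, List.ofFn r)).2 -
            potts q y n E| ≤ potts q y n E / k).card : ℚ) / 2 ^ l := by
  obtain ⟨w₁, w₂, h1, h2, h3⟩ := rat_split hy
  obtain ⟨M, p, C, hM, h4, H⟩ := sqrtexp hq one_pos h1 h2
  refine ⟨M, p, C, hM.isPolyTime, fun n E k l hk hl => ?_⟩
  have h6 := H (List.replicate n true) (E.map fun e => (e.1.val, e.2.val)) (List.replicate k true) l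
    (List.forall_mem_map.2 (by simp)) (by simpa) (by rw [List.length_replicate]; exact hl)
  have h7 := potts_eq hq (show (0 : ℝ) < w₁ / w₂ by positivity) E id
  simp only [List.length_replicate, Nat.cast_one, div_one, id] at h6 h7
  rw [Ex_sum, ← Finset.sum_filter, ← h7, ← h3] at h6
  simp only [h4, true_and, ← Rat.cast_le (K := ℝ)]
  simpa [potts, input] using h6

end Pool.Agent.Results.MP_9bdb70_lc.SqrtScheme
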